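import Pool.Agent.H169Z.WN.Norm

set_option autoImplicit false

open MeasureTheory

namespace Pool.Agent.Results.MP_16ad8c_co.ACutInvolutionCounterexample

open Pool.Agent.H169Z.WN

/-- There is a connected bigraph with at least one edge that is edge-transitive under its
cut-involution group but is not weakly norming (on the unit interval with Lebesgue measure on
both sides). Witness: the point-line incidence bigraph of the Fano plane with every line doubled. -/
theorem result :
    ∃ (n m : ℕ) (E : Finset (Fin n × Fin m)), E.Nonempty ∧ (graph E).Connected ∧
      EdgeTransitive E (cutGroup E) ∧
      ¬ WeaklyNormingOn E (volume : Measure unitInterval) (volume : Measure unitInterval) :=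
  ⟨7, 14, fano, Finset.card_pos.1 (by rw [card_fano]; norm_num), connected_fano, transitive_fano,
    not_norming⟩

end Pool.Agent.Results.MP_16ad8c_co.ACutInvolutionCounterexample
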